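import Pool.Agent.Helper79.GU.St1

/-!
# Project GU, module AR1
-/

set_option autoImplicit false

namespace Pool.Agent.Helper14.GU

open Pool.Agent.Helper79.GU Pool.Agent.Helper79.GT Pool.Agent.Helper79.GS Pool.Agent.Helper73.DC
open scoped Classical

private lemma b01_le (p : Prop) : b01 p ≤ 1 := by
  unfold b01; split_ifs <;> omega

private lemma b01_eq (p : Prop) : b01 p = 1 ↔ p := by
  unfold b01; split_ifs with h <;> simp [h]

private lemma b01_ne (p : Prop) : b01 p ≠ 0 ↔ p := by
  unfold b01; split_ifs with h <;> simp [h]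

private lemma b01_congr {p q : Prop} (h : p ↔ q) : b01 p = b01 q := by
  rw [propext h]

private lemma b01_mod (p : Prop) : b01 p % 2 = b01 p := by
  have := b01_le p
  omega

/-- The statement AR1. -/
theorem hAR1 (hFLE : StFLE) : StAR1 := by
  intro w k u v c hok
  obtain ⟨hNb, -, -, -, -, hF⟩ := hFLE w
  obtain ⟨f0, f1, f2, f3, f4, -⟩ := hF 1 k u v c hok
  obtain ⟨-, -, hk, hu, hv, hc⟩ := hok
  set z := zE (NN 8 w) w 1 k u v c with hz
  rcases k with _ | k
  · have hl : lenE (NN 8 w) w z = 0 := by simp [lenE, f0, f1]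
    refine ⟨?_, ?_⟩
    · intro j hj
      rw [hl] at hj
      omega
    · rw [hl]
      show valE w z = iniE (NN 8 w) w z % 2
      have h1 : valE w z = b01 (pthN (NN 8 w) (nV w) c 0 u v) := by
        simp [valE, f0, f1, f2, f3, f4]
      have h2 : iniE (NN 8 w) w z = b01 (u = v ∨ stN (NN 8 w) (nV w) c u v) := by
        simp [iniE, f0, f1, f2, f3, f4]
      rw [h1, h2, b01_mod]
      rfl
  · have hl : lenE (NN 8 w) w z = 2 * NbE (NN 8 w) w := by simp [lenE, f0, f1]
    have hd : ∀ j, delE (NN 8 w) w z j =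
        if j % 2 = 0 then zE (NN 8 w) w 1 k u (j / 2) c else zE (NN 8 w) w 1 k (j / 2) v c := by
      intro j
      simp [delE, f0, f1, f2, f3, f4]
    have hok1 : ∀ m < NbE (NN 8 w) w, OkFE w 1 k u m c := by
      intro m hm
      rw [hNb] at hm
      exact ⟨le_refl _, by norm_num, by omega, hu, hm, hc⟩
    have hok2 : ∀ m < NbE (NN 8 w) w, OkFE w 1 k m v c := by
      intro m hm
      rw [hNb] at hm
      exact ⟨le_refl _, by norm_num, by omega, hm, hv, hc⟩
    have hrk : ∀ x y, OkFE w 1 k x y c → rkE w (zE (NN 8 w) w 1 k x y c) = k := by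
      intro x y h
      obtain ⟨g0, g1, -, -, -, -⟩ := hF 1 k x y c h
      simp [rkE, g0, g1]
    have hval : ∀ x y, OkFE w 1 k x y c →
        valE w (zE (NN 8 w) w 1 k x y c) = b01 (pthN (NN 8 w) (nV w) c k x y) := by
      intro x y h
      obtain ⟨g0, g1, g2, g3, g4, -⟩ := hF 1 k x y c h
      simp [valE, g0, g1, g2, g3, g4]
    have hrz : rkE w z = k + 1 := by simp [rkE, f0, f1]
    refine ⟨?_, ?_⟩
    · intro j hj
      rw [hl] at hj
      have hj2 : j / 2 < NbE (NN 8 w) w := by omega
      rw [hd, hrz]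
      split_ifs with h
      · exact ⟨⟨1, k, u, j / 2, c, hok1 _ hj2, rfl⟩, by rw [hrk _ _ (hok1 _ hj2)]; omega⟩
      · exact ⟨⟨1, k, j / 2, v, c, hok2 _ hj2, rfl⟩, by rw [hrk _ _ (hok2 _ hj2)]; omega⟩
    · have hini : iniE (NN 8 w) w z = 0 := by simp [iniE, f0, f1]
      have hs0 : ∀ i a y, stpE (NN 8 w) w z (2 * i) a y = a % 2 + 2 * b01 (y ≠ 0) := by
        intro i a y
        simp [stpE, f0]
      have hs1 : ∀ i a y, stpE (NN 8 w) w z (2 * i + 1) a y =
          b01 (a % 2 = 1 ∨ (a / 2 = 1 ∧ y ≠ 0)) := by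
        intro i a y
        simp [stpE, f0]
      have hacc : ∀ i ≤ NbE (NN 8 w) w,
          (Nat.rec (iniE (NN 8 w) w z)
            (fun j a => stpE (NN 8 w) w z j a (valE w (delE (NN 8 w) w z j))) (2 * i) : ℕ) =
            b01 (∃ m < i, pthN (NN 8 w) (nV w) c k u m ∧ pthN (NN 8 w) (nV w) c k m v) := by
        intro i
        induction i with
        | zero =>
          intro _
          show iniE (NN 8 w) w z = _
          rw [hini]
          unfold b01
          rw [if_neg]
          rintro ⟨m, hm, -⟩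
          omega
        | succ i ih =>
          intro hi
          have hi' : i < NbE (NN 8 w) w := by omega
          have ih' := ih (by omega)
          show stpE (NN 8 w) w z (2 * i + 1) (stpE (NN 8 w) w z (2 * i)
            (Nat.rec (iniE (NN 8 w) w z)
              (fun j a => stpE (NN 8 w) w z j a (valE w (delE (NN 8 w) w z j))) (2 * i) : ℕ)
            (valE w (delE (NN 8 w) w z (2 * i)))) (valE w (delE (NN 8 w) w z (2 * i + 1))) = _
          rw [ih', hs0, hs1, hd, hd]
          have e1 : 2 * i % 2 = 0 := by omega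
          have e2 : (2 * i + 1) % 2 ≠ 0 := by omega
          have e3 : 2 * i / 2 = i := by omega
          have e4 : (2 * i + 1) / 2 = i := by omega
          rw [if_pos e1, if_neg e2, e3, e4, hval _ _ (hok1 _ hi'), hval _ _ (hok2 _ hi')]
          apply b01_congr
          rw [b01_ne (pthN (NN 8 w) (nV w) c k i v)]
          have q1 := b01_le (∃ m < i, pthN (NN 8 w) (nV w) c k u m ∧ pthN (NN 8 w) (nV w) c k m v)
          have q2 := b01_le (b01 (pthN (NN 8 w) (nV w) c k u i) ≠ 0)
          have q3 : (b01 (∃ m < i, pthN (NN 8 w) (nV w) c k u m ∧ pthN (NN 8 w) (nV w) c k m v) % 2 +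
              2 * b01 (b01 (pthN (NN 8 w) (nV w) c k u i) ≠ 0)) % 2 =
              b01 (∃ m < i, pthN (NN 8 w) (nV w) c k u m ∧ pthN (NN 8 w) (nV w) c k m v) := by omega
          have q4 : (b01 (∃ m < i, pthN (NN 8 w) (nV w) c k u m ∧ pthN (NN 8 w) (nV w) c k m v) % 2 +
              2 * b01 (b01 (pthN (NN 8 w) (nV w) c k u i) ≠ 0)) / 2 =
              b01 (b01 (pthN (NN 8 w) (nV w) c k u i) ≠ 0) := by omega
          rw [q3, q4, b01_eq, b01_eq, b01_ne]
          constructor
          · rintro (⟨m, hm, h⟩ | h)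
            · exact ⟨m, by omega, h⟩
            · exact ⟨i, by omega, h⟩
          · rintro ⟨m, hm, h⟩
            rcases Nat.lt_succ_iff_lt_or_eq.1 hm with h' | rfl
            · exact Or.inl ⟨m, h', h⟩
            · exact Or.inr h
      rw [hl, hacc _ (le_refl _), b01_mod]
      have h1 : valE w z = b01 (pthN (NN 8 w) (nV w) c (k + 1) u v) := by
        simp [valE, f0, f1, f2, f3, f4]
      rw [h1]
      apply b01_congr
      rfl

end Pool.Agent.Helper14.GU
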